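import Pool.Agent.Q39.RS.Main

/-!
MP_ac8f1a_ag, Q1, negative answer: under the hypotheses (H) the module `D(A)` need not have a
resolution of the conjectured shape.

The definitions are in `Pool/Agent/Q39/POG/Defs.lean` (`IsArrangement`, `logDer`,
`IsHomogeneousDer`), `Pool/Agent/Q39/SP/Defs.lean` (`defPoly`, `minorMatrix`, `IsPosHomogeneous`)
and `Pool/Agent/Q39/RS/Defs.lean` (`pd`, `HypH`, `HasShape`).
-/

set_option autoImplicit false

namespace Pool.Agent.Results.MP_ac8f1a_ag.ResolutionShape

open MvPolynomial Pool.Agent.Q39.POG Pool.Agent.Q39.RS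

lemma exists_ok (K : Type) [Field K] (hK : 5 ≤ ENat.card K) : ∃ b t : K, OK b t := by
  classical
  have key : ∀ s : Finset K, s.card < 5 → ∃ x, x ∉ s := by
    intro s hs
    by_contra hcon
    push Not at hcon
    have hfin : Finite K := Set.finite_univ_iff.1
      (Set.Finite.subset s.finite_toSet fun x _ => hcon x)
    have := Fintype.ofFinite K
    have h1 : Fintype.card K ≤ s.card := by
      rw [← Finset.card_univ]
      exact Finset.card_le_card fun x _ => hcon x
    rw [ENat.card_eq_coe_fintype_card] at hK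
    have h2 : 5 ≤ Fintype.card K := by exact_mod_cast hK
    omega
  obtain ⟨b, hb⟩ := key {0, 1} (lt_of_le_of_lt Finset.card_le_two (by norm_num))
  obtain ⟨t, ht⟩ := key {0, -1, b, b - 1} (lt_of_le_of_lt Finset.card_le_four (by norm_num))
  simp only [Finset.mem_insert, Finset.mem_singleton, not_or] at hb ht
  exact ⟨b, t, hb.1, hb.2, ht.1, ht.2.1, ht.2.2.1, ht.2.2.2⟩

/-- Over every field `K` with at least five elements there are an arrangement of seven planes in
`K^3` and homogeneous `θ_1, …, θ_4 ∈ D(A)` that satisfy the hypotheses (H) (with `g_4` of degree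
two), such that `D(A)` has no graded minimal free resolution
`0 → ⨁_{l < k ≤ p} S[-d_k-1] → ⨁_{1 ≤ i ≤ p} S[-d_i] → D(A) → 0`, for any `p` and `d_1, …, d_p`. -/
theorem result (K : Type) [Field K] (hK : 5 ≤ ENat.card K) :
    ∃ (A : Fin 7 → Fin 3 → K)
      (θ : Fin 4 → Derivation K (MvPolynomial (Fin 3) K) (MvPolynomial (Fin 3) K))
      (g : Fin 4 → MvPolynomial (Fin 3) K),
      IsArrangement A ∧ HypH A θ g ∧ ∀ (p : ℕ) (d : Fin p → ℕ), ¬ HasShape A p d := by
  obtain ⟨b, t, h⟩ := exists_ok K hK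
  obtain ⟨θ, g, hH, hS⟩ := main h
  exact ⟨AA b t, θ, g, arr_AA h, hH, hS⟩

end Pool.Agent.Results.MP_ac8f1a_ag.ResolutionShape
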